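import Pool.Agent.H818R2.Base2

/-! Averaging over spherical caps (MP_b5f63d_co; helper442). -/

open MeasureTheory Metric Filter Set
open scoped Topology RealInnerProductSpace
open Pool.Agent.H818R2

namespace Pool.Agent.H442KS

section
variable {E : Type*} [NormedAddCommGroup E] [InnerProductSpace ℝ E] [FiniteDimensional ℝ E]
  [MeasurableSpace E] [BorelSpace E]

/-- the pair of projections -/
noncomputable def prMap (K : Submodule ℝ E) (z : E) : K × Kᗮ :=
  WithLp.ofLp (K.orthogonalDecomposition z)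

theorem prMap_pres (K : Submodule ℝ E) : MeasurePreserving (prMap K) :=
  (WithLp.volume_preserving_ofLp K Kᗮ).comp (K.orthogonalDecomposition.measurePreserving)

theorem prMap_norm (K : Submodule ℝ E) (z : E) :
    ‖z‖ ^ 2 = ‖(prMap K z).1‖ ^ 2 + ‖(prMap K z).2‖ ^ 2 := by
  have h := K.orthogonalDecomposition.norm_map z
  have h2 := WithLp.prod_norm_sq_eq_of_L2 (K.orthogonalDecomposition z)
  rw [h] at h2
  exact h2

theorem prMap_fst (K : Submodule ℝ E) (z : E) : (prMap K z).1 = K.orthogonalProjectionOnto z := by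
  unfold prMap
  rw [Submodule.orthogonalDecomposition_apply]

theorem vb_le (K : Submodule ℝ E) : vb E ≤ vb K * vb Kᗮ := by
  have h1 : ball (0 : E) 1 ⊆ prMap K ⁻¹' (ball (0 : K) 1 ×ˢ ball (0 : Kᗮ) 1) := by
    intro z hz
    rw [mem_ball_zero_iff] at hz
    have h2 := prMap_norm K z
    have h3 := norm_nonneg z
    have h4 := norm_nonneg (prMap K z).1
    have h5 := norm_nonneg (prMap K z).2
    rw [mem_preimage, mem_prod, mem_ball_zero_iff, mem_ball_zero_iff]
    constructor <;> nlinarith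
  have h2 : volume (prMap K ⁻¹' (ball (0 : K) 1 ×ˢ ball (0 : Kᗮ) 1)) =
      volume (ball (0 : K) 1) * volume (ball (0 : Kᗮ) 1) := by
    rw [(prMap_pres K).measure_preimage
      (measurableSet_ball.prod measurableSet_ball).nullMeasurableSet, Measure.volume_eq_prod,
      Measure.prod_prod]
  have h3 := measure_mono h1 (μ := volume)
  rw [h2] at h3
  unfold vb
  rw [measureReal_def, measureReal_def, measureReal_def, ← ENNReal.toReal_mul]
  exact ENNReal.toReal_mono (ENNReal.mul_ne_top measure_ball_lt_top.ne measure_ball_lt_top.ne) h3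

/-- the prism about the direction `x` -/
def prism (x : E) (a r1 r2 : ℝ) : Set E :=
  prMap (ℝ ∙ x) ⁻¹' (ball (a • (⟨x, Submodule.mem_span_singleton_self x⟩ : (ℝ ∙ x))) r1 ×ˢ
    ball (0 : (ℝ ∙ x)ᗮ) r2)

theorem prism_meas (x : E) (a r1 r2 : ℝ) : MeasurableSet (prism x a r1 r2) :=
  (prMap_pres (ℝ ∙ x)).measurable (measurableSet_ball.prod measurableSet_ball)

theorem prism_vol {n : ℕ} (hn : Module.finrank ℝ E = n + 1) {x : E} (hx : ‖x‖ = 1) (a : ℝ)
    {r1 r2 : ℝ} (h1 : 0 < r1) (h2 : 0 < r2) :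
    ENNReal.ofReal (r1 * r2 ^ n * vb E) ≤ volume (prism x a r1 r2) := by
  have hx0 : x ≠ 0 := by
    intro h
    rw [h, norm_zero] at hx
    norm_num at hx
  have hK : Module.finrank ℝ (ℝ ∙ x) = 1 := finrank_span_singleton hx0
  have hK2 : Module.finrank ℝ (ℝ ∙ x)ᗮ = n := by
    have := Submodule.finrank_add_finrank_orthogonal (ℝ ∙ x)
    omega
  have e : volume (prism x a r1 r2) =
      volume (ball (a • (⟨x, Submodule.mem_span_singleton_self x⟩ : (ℝ ∙ x))) r1) *
        volume (ball (0 : (ℝ ∙ x)ᗮ) r2) := by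
    unfold prism
    rw [(prMap_pres (ℝ ∙ x)).measure_preimage
      (measurableSet_ball.prod measurableSet_ball).nullMeasurableSet, Measure.volume_eq_prod,
      Measure.prod_prod]
  rw [e]
  have e1 := vol_ball (a • (⟨x, Submodule.mem_span_singleton_self x⟩ : (ℝ ∙ x))) h1
  have e2 := vol_ball (0 : (ℝ ∙ x)ᗮ) h2
  rw [hK, pow_one, measureReal_def] at e1
  rw [hK2, measureReal_def] at e2
  rw [← ENNReal.ofReal_toReal (measure_ball_lt_top.ne :
      volume (ball (a • (⟨x, Submodule.mem_span_singleton_self x⟩ : (ℝ ∙ x))) r1) ≠ ⊤),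
    ← ENNReal.ofReal_toReal (measure_ball_lt_top.ne : volume (ball (0 : (ℝ ∙ x)ᗮ) r2) ≠ ⊤),
    ← ENNReal.ofReal_mul ENNReal.toReal_nonneg, e1, e2]
  apply ENNReal.ofReal_le_ofReal
  have h3 := vb_le (ℝ ∙ x)
  calc r1 * r2 ^ n * vb E ≤ r1 * r2 ^ n * (vb (ℝ ∙ x) * vb (ℝ ∙ x)ᗮ) :=
        mul_le_mul_of_nonneg_left h3 (by positivity)
    _ = _ := by ring

theorem mem_prism {x z : E} (hx : ‖x‖ = 1) {a r1 r2 : ℝ} (h : z ∈ prism x a r1 r2) :
    |⟪x, z⟫ - a| < r1 ∧ ‖z‖ ^ 2 - ⟪x, z⟫ ^ 2 < r2 ^ 2 := by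
  unfold prism at h
  rw [mem_preimage, mem_prod, mem_ball, mem_ball_zero_iff] at h
  have e1 : ((prMap (ℝ ∙ x) z).1 : E) = ⟪x, z⟫ • x := by
    rw [prMap_fst]
    exact Submodule.starProjection_unit_singleton ℝ hx z
  have e2 : ‖(prMap (ℝ ∙ x) z).1‖ ^ 2 = ⟪x, z⟫ ^ 2 := by
    have e3 : ‖(prMap (ℝ ∙ x) z).1‖ = ‖((prMap (ℝ ∙ x) z).1 : E)‖ := rfl
    rw [e3, e1, norm_smul, hx, mul_one, Real.norm_eq_abs, sq_abs]
  constructor
  · have h1 := h.1
    have e4 : dist (prMap (ℝ ∙ x) z).1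
        (a • (⟨x, Submodule.mem_span_singleton_self x⟩ : (ℝ ∙ x))) =
        ‖((prMap (ℝ ∙ x) z).1 : E) - a • x‖ := by
      rw [dist_eq_norm]
      rfl
    rw [e4, e1, ← sub_smul, norm_smul, hx, mul_one, Real.norm_eq_abs] at h1
    exact h1
  · have h3 := prMap_norm (ℝ ∙ x) z
    rw [e2] at h3
    have h4 := norm_nonneg (prMap (ℝ ∙ x) z).2
    have h5 : ‖(prMap (ℝ ∙ x) z).2‖ ^ 2 < r2 ^ 2 := pow_lt_pow_left₀ h.2 h4 (by norm_num)
    linarith

/-- **Averaging over caps.** -/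
theorem cap_count {n : ℕ} (hn : Module.finrank ℝ E = n + 1) {s c ε : ℝ} (hs : 0 < s) (hc : 0 < c)
    (hsc : s ^ 2 + c ^ 2 = 1) (hε : 0 < ε) (hε1 : ε < 1) {N : ℕ} (C : Finset E)
    (hC : ∀ x ∈ C, ‖x‖ = 1)
    (hN : ∀ (w : E) (P : Finset E), P ⊆ C → (∀ x ∈ P, dist x w < s) → P.card ≤ N) :
    (C.card : ℝ) * ((c * ε / 2) * (s * (1 - ε)) ^ n) ≤ N := by
  classical
  have hv := vb_pos (E := E)
  have h1ε : 0 < 1 - ε := by linarith
  set a : ℝ := c * (1 - ε / 2) with ha
  set r1 : ℝ := c * ε / 2 with hr1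
  set r2 : ℝ := s * (1 - ε) with hr2
  have hr10 : 0 < r1 := by positivity
  have hr20 : 0 < r2 := by positivity
  -- members of the prism
  have hmem : ∀ x : E, ‖x‖ = 1 → ∀ z ∈ prism x a r1 r2,
      ‖z‖ < 1 ∧ dist x ((c / ‖z‖) • z) < s := by
    intro x hx z hz
    obtain ⟨h1, h2⟩ := mem_prism hx hz
    rw [abs_lt] at h1
    have hα1 : c * (1 - ε) < ⟪x, z⟫ := by
      have : a - r1 = c * (1 - ε) := by rw [ha, hr1]; ring
      linarith [h1.1]
    have hα2 : ⟪x, z⟫ < c := by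
      have : a + r1 = c := by rw [ha, hr1]; ring
      linarith [h1.2]
    have hα0 : 0 < ⟪x, z⟫ := lt_trans (by positivity) hα1
    have hz0 : 0 < ‖z‖ := by
      have := real_inner_le_norm x z
      rw [hx, one_mul] at this
      linarith
    have hr2s : r2 ^ 2 < s ^ 2 := by
      have : r2 < s := by rw [hr2]; nlinarith
      exact pow_lt_pow_left₀ this hr20.le (by norm_num)
    have hz1 : ‖z‖ ^ 2 < 1 := by nlinarith
    refine ⟨by nlinarith, ?_⟩
    have hkey : c * ‖z‖ < ⟪x, z⟫ := by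
      have h3 : c ^ 2 * ‖z‖ ^ 2 < ⟪x, z⟫ ^ 2 := by
        -- c² (α² + |y|²) < α²
        have h4 : c ^ 2 * (‖z‖ ^ 2 - ⟪x, z⟫ ^ 2) < c ^ 2 * r2 ^ 2 :=
          mul_lt_mul_of_pos_left h2 (by positivity)
        have h5 : c ^ 2 * r2 ^ 2 = s ^ 2 * (c * (1 - ε)) ^ 2 := by rw [hr2]; ring
        have h6 : (c * (1 - ε)) ^ 2 < ⟪x, z⟫ ^ 2 := pow_lt_pow_left₀ hα1 (by positivity) (by norm_num)
        have h7 : s ^ 2 * (c * (1 - ε)) ^ 2 < s ^ 2 * ⟪x, z⟫ ^ 2 :=
          mul_lt_mul_of_pos_left h6 (by positivity)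
        have h8 : s ^ 2 * ⟪x, z⟫ ^ 2 + c ^ 2 * ⟪x, z⟫ ^ 2 = ⟪x, z⟫ ^ 2 := by
          rw [← add_mul, hsc, one_mul]
        nlinarith
      rw [← mul_pow] at h3
      exact lt_of_pow_lt_pow_left₀ 2 hα0.le h3
    have h9 : dist x ((c / ‖z‖) • z) ^ 2 < s ^ 2 := by
      rw [dist_eq_norm, norm_sub_sq_real, hx, real_inner_smul_right, norm_smul, Real.norm_eq_abs,
        abs_of_pos (div_pos hc hz0), div_mul_cancel₀ _ hz0.ne']
      have h10 : c ^ 2 < c / ‖z‖ * ⟪x, z⟫ := by
        rw [div_mul_eq_mul_div, lt_div_iff₀ hz0]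
        nlinarith
      nlinarith
    exact lt_of_pow_lt_pow_left₀ 2 hs.le h9
  have key : ∑ x ∈ C, ∫⁻ z, indicator (prism x a r1 r2) (fun _ => (1 : ENNReal)) z
      ≤ ∫⁻ z, indicator (ball (0 : E) 1) (fun _ => (N : ENNReal)) z := by
    rw [← lintegral_finsetSum]
    · apply lintegral_mono
      intro z
      have e1 : ∑ x ∈ C, indicator (prism x a r1 r2) (fun _ => (1 : ENNReal)) z
          = ((C.filter (fun x => z ∈ prism x a r1 r2)).card : ENNReal) := by
        rw [Finset.card_filter, Nat.cast_sum]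
        apply Finset.sum_congr rfl
        intro x _
        by_cases h : z ∈ prism x a r1 r2
        · simp [h]
        · simp [h]
      simp only [e1]
      by_cases hz : z ∈ ball (0 : E) 1
      · rw [indicator_of_mem hz]
        have := hN ((c / ‖z‖) • z) (C.filter (fun x => z ∈ prism x a r1 r2))
          (Finset.filter_subset _ _)
          (fun x hx => by
            rw [Finset.mem_filter] at hx
            exact (hmem x (hC x hx.1) z hx.2).2)
        exact_mod_cast this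
      · have : C.filter (fun x => z ∈ prism x a r1 r2) = ∅ := by
          apply Finset.filter_eq_empty_iff.2
          intro x hx hxz
          apply hz
          rw [mem_ball_zero_iff]
          exact (hmem x (hC x hx) z hxz).1
        rw [this]; simp
    · intro x _
      exact Measurable.indicator measurable_const (prism_meas x a r1 r2)
  have e2 : ∀ x ∈ C, ENNReal.ofReal (r1 * r2 ^ n * vb E) ≤
      ∫⁻ z, indicator (prism x a r1 r2) (fun _ => (1 : ENNReal)) z := by
    intro x hx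
    rw [lintegral_indicator_const (prism_meas x a r1 r2), one_mul]
    exact prism_vol hn (hC x hx) a hr10 hr20
  have h3 := (Finset.sum_le_sum e2).trans key
  rw [Finset.sum_const, nsmul_eq_mul, lintegral_indicator_const measurableSet_ball] at h3
  have h5 := ENNReal.toReal_mono (by
    exact ENNReal.mul_ne_top (ENNReal.natCast_ne_top N) measure_ball_lt_top.ne) h3
  rw [ENNReal.toReal_mul, ENNReal.toReal_natCast, ENNReal.toReal_ofReal (by positivity),
    ENNReal.toReal_mul, ENNReal.toReal_natCast] at h5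
  have h6 : (volume (ball (0 : E) 1)).toReal = vb E := rfl
  rw [h6] at h5
  have h7 : ((C.card : ℝ) * (r1 * r2 ^ n)) * vb E ≤ N * vb E := by
    calc _ = (C.card : ℝ) * (r1 * r2 ^ n * vb E) := by ring
      _ ≤ _ := h5
  exact le_of_mul_le_mul_right h7 hv

end

end Pool.Agent.H442KS
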