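import Mathlib

/-! Finite sets of unit vectors whose points see few distances (MP_b5f63d_co; helper442). -/

namespace Pool.Agent.H442KS

/-- `C` consists of unit vectors of `ℝ^n` at mutual distances at least `d`. -/
def IsCode {n : ℕ} (C : Finset (EuclideanSpace ℝ (Fin n))) (d : ℝ) : Prop :=
  (∀ x ∈ C, ‖x‖ = 1) ∧ ∀ x ∈ C, ∀ y ∈ C, x ≠ y → d ≤ dist x y

open Classical in
/-- The distances less than `τ` from `x` to the other points of `C`. -/
noncomputable def near {n : ℕ} (C : Finset (EuclideanSpace ℝ (Fin n))) (τ : ℝ)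
    (x : EuclideanSpace ℝ (Fin n)) : Finset ℝ :=
  (C.filter (fun y => y ≠ x ∧ dist x y < τ)).image (fun y => dist x y)

open Classical in
/-- The points of `C` which have at most `s` different distances less than `τ` to the other
points of `C`. -/
noncomputable def fewDist {n : ℕ} (C : Finset (EuclideanSpace ℝ (Fin n))) (τ : ℝ) (s : ℕ) :
    Finset (EuclideanSpace ℝ (Fin n)) :=
  C.filter (fun x => (near C τ x).card ≤ s)

open Classical in
/-- The points of `C` whose distances less than `τ` to the other points of `C` lie in `s` windows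
`[a, (1 + ε) a]`. -/
noncomputable def fewWin {n : ℕ} (C : Finset (EuclideanSpace ℝ (Fin n))) (τ : ℝ) (s : ℕ) (ε : ℝ) :
    Finset (EuclideanSpace ℝ (Fin n)) :=
  C.filter (fun x => ∃ a : Fin s → ℝ, ∀ y ∈ C, y ≠ x → dist x y < τ →
    ∃ i, a i ≤ dist x y ∧ dist x y ≤ (1 + ε) * a i)

open Classical in
/-- The distances of different points of `C`. -/
noncomputable def dists {n : ℕ} (C : Finset (EuclideanSpace ℝ (Fin n))) : Finset ℝ :=
  C.offDiag.image (fun p => dist p.1 p.2)

end Pool.Agent.H442KS
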