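import Pool.Agent.H442KS.Defs
import Pool.Agent.H442KS.Cap
import Pool.Agent.H442FD.Lower

/-! Linearly many distances suffice (MP_b5f63d_co; helper442). -/

open Metric Filter Set
open scoped Topology

namespace Pool.Agent.H442KS

open Pool.Agent.H442FD (intPts near_int dist_sq_int)

theorem exists_cap {n : ℕ} (C : Finset (EuclideanSpace ℝ (Fin (n + 1)))) (hC : ∀ x ∈ C, ‖x‖ = 1)
    {s c ε : ℝ} (hs : 0 < s) (hc : 0 < c) (hsc : s ^ 2 + c ^ 2 = 1) (hε : 0 < ε) (hε1 : ε < 1) :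
    ∃ (w : EuclideanSpace ℝ (Fin (n + 1))) (P : Finset (EuclideanSpace ℝ (Fin (n + 1)))),
      P ⊆ C ∧ (∀ x ∈ P, dist x w < s) ∧
      (C.card : ℝ) * ((c * ε / 2) * (s * (1 - ε)) ^ n) ≤ P.card := by
  classical
  have hne : (C.powerset.filter (fun P => ∃ w : EuclideanSpace ℝ (Fin (n + 1)),
      ∀ x ∈ P, dist x w < s)).Nonempty := ⟨∅, by simp⟩
  obtain ⟨P, hP, hmax⟩ := Finset.exists_max_image _ Finset.card hne
  rw [Finset.mem_filter, Finset.mem_powerset] at hP
  obtain ⟨hPC, w, hw⟩ := hP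
  refine ⟨w, P, hPC, hw, cap_count (by simp) hs hc hsc hε hε1 C hC ?_⟩
  intro w' P' hP' hw'
  exact hmax P' (Finset.mem_filter.2 ⟨Finset.mem_powerset.2 hP', w', hw'⟩)

theorem round_cap {n : ℕ} (hn : 1 ≤ n) {T s d : ℝ} (hs : 0 < s) (hd : 0 < d)
    (hd2 : d ≤ 2) (hT0 : 0 < T) (hT : 2 * √n ≤ T * d * (1 - s))
    (P : Finset (EuclideanSpace ℝ (Fin n))) (w : EuclideanSpace ℝ (Fin n))
    (hP : ∀ x ∈ P, dist x w < s) (hsep : ∀ x ∈ P, ∀ y ∈ P, x ≠ y → d ≤ dist x y) :
    ∃ (M : ℕ) (C : Finset (EuclideanSpace ℝ (Fin n))), 0 < M ∧ (M : ℝ) ≤ T ^ 2 ∧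
      IsCode C d ∧ (∀ x ∈ C, √(M : ℝ) • x ∈ intPts n) ∧
      (P.card : ℝ) ≤ (T ^ 2 + 1) * C.card := by
  classical
  have hn0 : (1 : ℝ) ≤ n := by exact_mod_cast hn
  have hsn : 1 ≤ √(n : ℝ) := by
    rw [Real.one_le_sqrt]
    exact hn0
  have hTs : √(n : ℝ) ≤ T * (1 - s) := by
    have h1 : T * d * (1 - s) = d * (T * (1 - s)) := by ring
    rw [h1] at hT
    have h2 : 0 < T * (1 - s) := by
      by_contra hcon
      push Not at hcon
      have : d * (T * (1 - s)) ≤ 0 := mul_nonpos_of_nonneg_of_nonpos hd.le hcon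
      linarith
    nlinarith
  have hT1 : 1 ≤ T := by nlinarith
  choose f hfI hfd using (near_int (n := n))
  set g : EuclideanSpace ℝ (Fin n) → EuclideanSpace ℝ (Fin n) := fun x => f (T • (x - w)) with hg
  have hg1 : ∀ x ∈ P, ‖g x‖ ≤ T * s + √n / 2 := by
    intro x hx
    have h1 := hfd (T • (x - w))
    have h2 : ‖T • (x - w)‖ ≤ T * s := by
      rw [norm_smul, Real.norm_eq_abs, abs_of_pos hT0, ← dist_eq_norm]
      exact mul_le_mul_of_nonneg_left (hP x hx).le hT0.le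
    calc ‖g x‖ = dist (g x) 0 := (dist_zero_right _).symm
      _ ≤ dist (g x) (T • (x - w)) + dist (T • (x - w)) 0 := dist_triangle _ _ _
      _ ≤ √n / 2 + T * s := by
          rw [dist_comm, dist_zero_right]
          exact add_le_add h1 h2
      _ = _ := add_comm _ _
  have hg2 : ∀ x ∈ P, ∀ y ∈ P, x ≠ y → T * d - √n ≤ dist (g x) (g y) := by
    intro x hx y hy hxy
    have h1 := hfd (T • (x - w))
    have h2 := hfd (T • (y - w))
    have h3 := dist_triangle4 (T • (x - w)) (g x) (g y) (T • (y - w))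
    have h4 : dist (T • (x - w)) (T • (y - w)) = T * dist x y := by
      rw [dist_eq_norm, ← smul_sub, norm_smul, Real.norm_eq_abs, abs_of_pos hT0, dist_eq_norm]
      congr 2
      abel
    rw [dist_comm (g y)] at h3
    have h5 := mul_le_mul_of_nonneg_left (hsep x hx y hy hxy) hT0.le
    linarith
  have h0I : (0 : EuclideanSpace ℝ (Fin n)) ∈ intPts n := fun i => ⟨0, by simp⟩
  have hnat : ∀ x, ∃ m : ℕ, ‖g x‖ ^ 2 = m := by
    intro x
    obtain ⟨m, hm⟩ := dist_sq_int (hfI (T • (x - w))) h0I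
    exact ⟨m, by rw [← hm, dist_zero_right]⟩
  choose N hN using hnat
  have hNle : ∀ x ∈ P, (N x : ℝ) ≤ T ^ 2 := by
    intro x hx
    rw [← hN]
    exact pow_le_pow_left₀ (norm_nonneg _) (by linarith [hg1 x hx]) 2
  have hfl : ((⌊T ^ 2⌋₊ : ℕ) : ℝ) ≤ T ^ 2 := Nat.floor_le (by positivity)
  obtain ⟨M, hMt, hM⟩ := Finset.exists_le_card_fiber_of_nsmul_le_card_of_maps_to
    (s := P) (t := Finset.range (⌊T ^ 2⌋₊ + 1)) (f := N) (b := (P.card : ℝ) / (⌊T ^ 2⌋₊ + 1))
    (fun x hx => Finset.mem_range.2 (Nat.lt_succ_of_le (Nat.le_floor (hNle x hx))))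
    ⟨0, by simp⟩ (by
      rw [Finset.card_range, nsmul_eq_mul]
      push_cast
      rw [mul_div_cancel₀ _ (by positivity)])
  set Q := P.filter (fun x => N x = M) with hQ
  have hcard : (P.card : ℝ) ≤ (T ^ 2 + 1) * Q.card := by
    rw [div_le_iff₀ (by positivity)] at hM
    calc (P.card : ℝ) ≤ Q.card * (⌊T ^ 2⌋₊ + 1) := hM
      _ ≤ Q.card * (T ^ 2 + 1) := mul_le_mul_of_nonneg_left (by linarith) (Nat.cast_nonneg _)
      _ = _ := mul_comm _ _
  have hMT : (M : ℝ) ≤ T ^ 2 := by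
    have h1 : (M : ℝ) ≤ ⌊T ^ 2⌋₊ := by
      exact_mod_cast Nat.le_of_lt_succ (Finset.mem_range.1 hMt)
    linarith
  have hTd : √(n : ℝ) < T * d := by
    have h1 : T * d * (1 - s) ≤ T * d := by nlinarith [mul_pos hT0 hd]
    linarith
  rcases Nat.eq_zero_or_pos M with hM0 | hM0
  · -- norm zero
    refine ⟨1, {EuclideanSpace.single ⟨0, hn⟩ (1 : ℝ)}, one_pos, ?_, ⟨?_, ?_⟩, ?_, ?_⟩
    · push_cast
      nlinarith
    · intro x hx
      rw [Finset.mem_singleton.1 hx]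
      simp
    · intro x hx y hy hxy
      rw [Finset.mem_singleton.1 hx, Finset.mem_singleton.1 hy] at hxy
      exact absurd rfl hxy
    · intro x hx i
      rw [Finset.mem_singleton.1 hx]
      by_cases hi : i = ⟨0, hn⟩
      · exact ⟨1, by simp [hi]⟩
      · exact ⟨0, by simp [hi]⟩
    · have hQ1 : Q.card ≤ 1 := by
        rw [Finset.card_le_one]
        intro x hx y hy
        rw [hQ, Finset.mem_filter] at hx hy
        by_contra hxy
        have h1 := hg2 x hx.1 y hy.1 hxy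
        have hz : ∀ z, N z = M → g z = 0 := by
          intro z hz
          have h2 := hN z
          rw [hz, hM0, Nat.cast_zero] at h2
          have h3 : ‖g z‖ = 0 := by
            rcases pow_eq_zero_iff (two_ne_zero) |>.1 h2 with h
            exact h
          exact norm_eq_zero.1 h3
        rw [hz x hx.2, hz y hy.2, dist_self] at h1
        linarith
      refine hcard.trans ?_
      apply mul_le_mul_of_nonneg_left _ (by positivity)
      rw [Finset.card_singleton]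
      exact_mod_cast hQ1
  · have hM0' : (0 : ℝ) < M := by exact_mod_cast hM0
    have hsM : 0 < √(M : ℝ) := Real.sqrt_pos.2 hM0'
    have hnorm : ∀ x ∈ Q, ‖g x‖ = √(M : ℝ) := by
      intro x hx
      rw [hQ, Finset.mem_filter] at hx
      rw [← hx.2, ← hN, Real.sqrt_sq (norm_nonneg _)]
    have hdist : ∀ x ∈ Q, ∀ y ∈ Q, x ≠ y →
        d ≤ dist ((1 / √(M : ℝ)) • g x) ((1 / √(M : ℝ)) • g y) := by
      intro x hx y hy hxy
      have hxP := (Finset.mem_filter.1 hx).1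
      have hyP := (Finset.mem_filter.1 hy).1
      have h1 := hg2 x hxP y hyP hxy
      have h2 := hg1 x hxP
      rw [hnorm x hx] at h2
      rw [dist_eq_norm, ← smul_sub, norm_smul, Real.norm_eq_abs, abs_of_pos (by positivity),
        ← dist_eq_norm, one_div, inv_mul_eq_div, le_div_iff₀ hsM]
      have h3 : d * √(M : ℝ) ≤ d * (T * s + √n / 2) := mul_le_mul_of_nonneg_left h2 hd.le
      have h4 : d * (√(n : ℝ) / 2) ≤ √n := by nlinarith
      nlinarith
    have hinj : Set.InjOn (fun x => (1 / √(M : ℝ)) • g x) (Q : Set (EuclideanSpace ℝ (Fin n))) := by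
      intro x hx y hy hxy
      by_contra hne
      have h1 := hdist x (by exact_mod_cast hx) y (by exact_mod_cast hy) hne
      simp only at hxy
      rw [hxy, dist_self] at h1
      linarith
    refine ⟨M, Q.image (fun x => (1 / √(M : ℝ)) • g x), hM0, hMT, ⟨?_, ?_⟩, ?_, ?_⟩
    · intro x hx
      obtain ⟨y, hy, rfl⟩ := Finset.mem_image.1 hx
      rw [norm_smul, hnorm y hy, Real.norm_eq_abs, abs_of_pos (by positivity), one_div,
        inv_mul_cancel₀ hsM.ne']
    · intro x hx y hy hxy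
      obtain ⟨x', hx', rfl⟩ := Finset.mem_image.1 hx
      obtain ⟨y', hy', rfl⟩ := Finset.mem_image.1 hy
      exact hdist x' hx' y' hy' (fun h => hxy (by rw [h]))
    · intro x hx
      obtain ⟨y, hy, rfl⟩ := Finset.mem_image.1 hx
      rw [smul_smul, mul_one_div_cancel hsM.ne', one_smul]
      exact hfI _
    · rw [Finset.card_image_of_injOn hinj]
      exact hcard

theorem dists_card {n : ℕ} {M : ℕ} (hM : 0 < M) {C : Finset (EuclideanSpace ℝ (Fin n))}
    (hC : ∀ x ∈ C, ‖x‖ = 1) (hI : ∀ x ∈ C, √(M : ℝ) • x ∈ intPts n) :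
    (dists C).card ≤ 4 * M := by
  classical
  have hM0 : (0 : ℝ) < M := by exact_mod_cast hM
  have hsM : 0 < √(M : ℝ) := Real.sqrt_pos.2 hM0
  have hsub : dists C ⊆ (Finset.Icc 1 (4 * M)).image (fun j : ℕ => √((j : ℝ) / M)) := by
    intro v hv
    unfold dists at hv
    obtain ⟨p, hp, rfl⟩ := Finset.mem_image.1 hv
    rw [Finset.mem_offDiag] at hp
    obtain ⟨hx, hy, hxy⟩ := hp
    obtain ⟨j, hj⟩ := dist_sq_int (hI _ hx) (hI _ hy)
    have h1 : dist (√(M : ℝ) • p.1) (√(M : ℝ) • p.2) = √M * dist p.1 p.2 := by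
      rw [dist_eq_norm, ← smul_sub, norm_smul, Real.norm_eq_abs, abs_of_pos hsM, dist_eq_norm]
    rw [h1, mul_pow, Real.sq_sqrt hM0.le] at hj
    have h2 : 0 < dist p.1 p.2 := dist_pos.2 hxy
    have h3 : dist p.1 p.2 ≤ 2 := by
      rw [dist_eq_norm]
      have := norm_sub_le p.1 p.2
      rw [hC _ hx, hC _ hy] at this
      linarith
    rw [Finset.mem_image]
    refine ⟨j, ?_, ?_⟩
    · rw [Finset.mem_Icc]
      constructor
      · by_contra hcon
        have : j = 0 := by omega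
        rw [this, Nat.cast_zero] at hj
        have h4 : 0 < (M : ℝ) * dist p.1 p.2 ^ 2 := by positivity
        linarith
      · have h4 : (j : ℝ) ≤ 4 * M := by
          rw [← hj]
          nlinarith [mul_le_mul h3 h3 h2.le (by norm_num)]
        exact_mod_cast h4
    · rw [← hj, mul_div_assoc, mul_div_cancel₀ _ hM0.ne', Real.sqrt_sq h2.le]
  refine (Finset.card_le_card hsub).trans (Finset.card_image_le.trans ?_)
  rw [Nat.card_Icc]
  omega

/-- **Linearly many distances suffice.** -/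
theorem sph_linear {d δ : ℝ} (hd : 0 < d) (hd2 : d ≤ 2) (hδ : 0 < δ) : ∃ B : ℕ, ∀ᶠ n : ℕ in atTop,
    ∀ C₀ : Finset (EuclideanSpace ℝ (Fin n)), IsCode C₀ d →
      ∃ C : Finset (EuclideanSpace ℝ (Fin n)), IsCode C d ∧ (dists C).card ≤ B * n ∧
        (∃ M : ℕ, 0 < M ∧ M ≤ B * n ∧ ∀ x ∈ C, ∀ i, ∃ z : ℤ, √(M : ℝ) * x i = z) ∧
        (C₀.card : ℝ) ≤ (2 : ℝ) ^ (δ * n) * C.card := by
  classical
  set s : ℝ := (2 : ℝ) ^ (-(δ / 4)) with hs
  have hs0 : 0 < s := by positivity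
  have hs1 : s < 1 := Real.rpow_lt_one_of_one_lt_of_neg (by norm_num) (by linarith)
  set u : ℝ := (2 : ℝ) ^ (δ / 4) with hu
  have hu1 : 1 < u := Real.one_lt_rpow (by norm_num) (by positivity)
  have hu0 : 0 < u := by linarith
  have hsu : s = u⁻¹ := Real.rpow_neg (by norm_num) _
  have hs2 : 0 < 1 - s ^ 2 := by nlinarith
  set c : ℝ := √(1 - s ^ 2) with hc
  have hc0 : 0 < c := Real.sqrt_pos.2 hs2
  have hsc : s ^ 2 + c ^ 2 = 1 := by rw [hc, Real.sq_sqrt hs2.le]; ring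
  set ε : ℝ := 1 - s with hε
  have hε0 : 0 < ε := by linarith
  have hε1 : ε < 1 := by linarith
  have hε2 : 1 - ε = s := by rw [hε]; ring
  set K : ℝ := (2 / (d * (1 - s))) ^ 2 with hK
  have h1s : 0 < 1 - s := by linarith
  have hK0 : 0 < K := by positivity
  set A' : ℝ := c * ε / 2 with hA'
  have hA0 : 0 < A' := by positivity
  set K' : ℝ := max 1 (K / (u - 1)) with hK'
  have hK'1 : 1 ≤ K' := le_max_left _ _
  have hu1' : 0 < u - 1 := by linarith
  have hlim : Tendsto (fun n : ℕ => u ^ n) atTop atTop := tendsto_pow_atTop_atTop_of_one_lt hu1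
  refine ⟨4 * ⌈K⌉₊, ?_⟩
  filter_upwards [eventually_ge_atTop 1, hlim.eventually_ge_atTop (K' / A')] with n hn hAn C₀ hC₀
  obtain ⟨k, rfl⟩ : ∃ k, n = k + 1 := ⟨n - 1, by omega⟩
  have hn0 : (0 : ℝ) < ((k + 1 : ℕ) : ℝ) := by positivity
  obtain ⟨w, P, hPC, hPw, hPcard⟩ := exists_cap C₀ hC₀.1 hs0 hc0 hsc hε0 hε1
  set T : ℝ := 2 * √((k + 1 : ℕ) : ℝ) / (d * (1 - s)) with hT
  have hT0 : 0 < T := by positivity
  have hT2 : T ^ 2 = K * (k + 1 : ℕ) := by
    rw [hT, hK, div_pow, mul_pow, Real.sq_sqrt hn0.le, div_pow]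
    ring
  have hT3 : 2 * √((k + 1 : ℕ) : ℝ) ≤ T * d * (1 - s) := by
    rw [hT]
    apply le_of_eq
    field_simp
  obtain ⟨M, C, hM0, hMT, hC, hI, hcard⟩ := round_cap hn hs0 hd hd2 hT0 hT3 P w hPw
    (fun x hx y hy hxy => hC₀.2 x (hPC hx) y (hPC hy) hxy)
  have hMn : M ≤ ⌈K⌉₊ * (k + 1) := by
    have h1 : (M : ℝ) ≤ (⌈K⌉₊ : ℝ) * ((k + 1 : ℕ) : ℝ) := by
      rw [hT2] at hMT
      exact hMT.trans (mul_le_mul_of_nonneg_right (Nat.le_ceil K) hn0.le)
    exact_mod_cast h1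
  refine ⟨C, hC, ?_, ⟨M, hM0, ?_, ?_⟩, ?_⟩
  · refine (dists_card hM0 hC.1 hI).trans ?_
    nlinarith
  · nlinarith
  · intro x hx i
    obtain ⟨z, hz⟩ := hI x hx i
    exact ⟨z, by rw [← hz]; rfl⟩
  · rw [hε2, hT2] at *
    have h1 : (C₀.card : ℝ) * (A' * (s * s) ^ k) ≤ (K * (k + 1 : ℕ) + 1) * C.card :=
      hPcard.trans hcard
    have h2 : K * ((k + 1 : ℕ) : ℝ) + 1 ≤ K' * u ^ (k + 1) := by
      have h3 := one_add_mul_le_pow (a := u - 1) (by linarith) (k + 1)
      rw [add_sub_cancel] at h3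
      have h4 : K ≤ K' * (u - 1) := by
        have : K / (u - 1) ≤ K' := le_max_right _ _
        rwa [div_le_iff₀ hu1'] at this
      calc K * ((k + 1 : ℕ) : ℝ) + 1 ≤ K' * (u - 1) * ((k + 1 : ℕ) : ℝ) + K' :=
            add_le_add (mul_le_mul_of_nonneg_right h4 hn0.le) hK'1
        _ = K' * (1 + ((k + 1 : ℕ) : ℝ) * (u - 1)) := by ring
        _ ≤ K' * u ^ (k + 1) := mul_le_mul_of_nonneg_left h3 (by linarith)
    have h5 : K' ≤ A' * u ^ (k + 1) := by
      rw [div_le_iff₀ hA0] at hAn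
      linarith
    have h6 : K * ((k + 1 : ℕ) : ℝ) + 1 ≤ A' * (u ^ (k + 1) * u ^ (k + 1)) := by
      calc _ ≤ K' * u ^ (k + 1) := h2
        _ ≤ (A' * u ^ (k + 1)) * u ^ (k + 1) := mul_le_mul_of_nonneg_right h5 (by positivity)
        _ = _ := by ring
    have h7 : (C₀.card : ℝ) * (A' * (s * s) ^ k) ≤
        A' * (u ^ (k + 1) * u ^ (k + 1)) * C.card :=
      h1.trans (mul_le_mul_of_nonneg_right h6 (Nat.cast_nonneg _))
    have h8 : (C₀.card : ℝ) ≤ (u ^ (k + 1) * u ^ (k + 1)) * (u * u) ^ k * C.card := by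
      have h9 : (s * s) ^ k * (u * u) ^ k = 1 := by
        rw [← mul_pow, hsu]
        have : u⁻¹ * u⁻¹ * (u * u) = 1 := by field_simp
        rw [this, one_pow]
      have h10 := mul_le_mul_of_nonneg_right h7 (show 0 ≤ (u * u) ^ k / A' by positivity)
      calc (C₀.card : ℝ) = C₀.card * (A' * (s * s) ^ k) * ((u * u) ^ k / A') := by
            have : (C₀.card : ℝ) * (A' * (s * s) ^ k) * ((u * u) ^ k / A') =
              C₀.card * ((s * s) ^ k * (u * u) ^ k) := by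
              field_simp
            rw [this, h9, mul_one]
        _ ≤ _ := h10
        _ = _ := by field_simp
    refine h8.trans ?_
    apply mul_le_mul_of_nonneg_right _ (Nat.cast_nonneg _)
    have h11 : (2 : ℝ) ^ (δ * (k + 1 : ℕ)) = (u ^ (k + 1) * u ^ (k + 1)) * (u * u) ^ (k + 1) := by
      rw [Real.rpow_mul (by norm_num), Real.rpow_natCast, ← mul_pow, ← mul_pow]
      congr 1
      rw [hu, ← Real.rpow_add (by norm_num), ← Real.rpow_add (by norm_num)]
      congr 1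
      ring
    rw [h11]
    apply mul_le_mul_of_nonneg_left _ (by positivity)
    exact pow_le_pow_right₀ (by nlinarith) (Nat.le_succ k)

end Pool.Agent.H442KS
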