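import Pool.Agent.H442KS.Defs
import Pool.Agent.H442KS.Cap
import Pool.Agent.H442FD2.Few

/-! Unit vectors: close cliques, kernels, few distances (MP_b5f63d_co; helper442). -/

open Metric Filter Set
open scoped Topology

namespace Pool.Agent.H442KS

open Pool.Agent.H442FD (choose_small zc)
open Pool.Agent.H442FD2 (ramsey_local kernel_close dist_aff_mem)
open Pool.Agent.H442SN (choose_le_pow')

theorem sph_close {n : ℕ} (C : Finset (EuclideanSpace ℝ (Fin (n + 1)))) (hC : ∀ x ∈ C, ‖x‖ = 1)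
    {τ : ℝ} (hτ : 0 < τ) (hτ2 : τ ≤ √2) {m N : ℕ} (hm : 1 ≤ m) {ε : ℝ} (hε : 0 < ε) (hε1 : ε < 1)
    (hclose : ∀ Q ⊆ C, (∀ x ∈ Q, ∀ y ∈ Q, x ≠ y → dist x y < τ) → Q.card ≤ N) :
    (C.card : ℝ) * ((ε / (2 * √(m + 1))) * (τ / √2 * √(m / (m + 1)) * (1 - ε)) ^ n) ≤
      (((m + N).choose m - 1 : ℕ) : ℝ) := by
  have hm0 : (0 : ℝ) < m := by exact_mod_cast hm
  have hm1 : (0 : ℝ) < (m : ℝ) + 1 := by positivity
  set s : ℝ := τ / √2 * √(m / (m + 1)) with hs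
  have hs0 : 0 < s := by positivity
  have hs2 : s ^ 2 = τ ^ 2 / 2 * (m / (m + 1)) := by
    rw [hs, mul_pow, div_pow, Real.sq_sqrt (by norm_num), Real.sq_sqrt (by positivity)]
  have hτ3 : τ ^ 2 ≤ 2 := by
    calc τ ^ 2 ≤ (√2) ^ 2 := pow_le_pow_left₀ hτ.le hτ2 2
      _ = 2 := Real.sq_sqrt (by norm_num)
  have hs3 : s ^ 2 ≤ m / (m + 1) := by
    rw [hs2]
    have : τ ^ 2 / 2 ≤ 1 := by linarith
    calc τ ^ 2 / 2 * ((m : ℝ) / (m + 1)) ≤ 1 * (m / (m + 1)) :=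
          mul_le_mul_of_nonneg_right this (by positivity)
      _ = _ := one_mul _
  set c : ℝ := √(1 - s ^ 2) with hc
  have hc1 : 1 / ((m : ℝ) + 1) ≤ 1 - s ^ 2 := by
    have : (m : ℝ) / (m + 1) = 1 - 1 / (m + 1) := by field_simp; ring
    linarith
  have hc0 : 0 < 1 - s ^ 2 := lt_of_lt_of_le (by positivity) hc1
  have hcpos : 0 < c := Real.sqrt_pos.2 hc0
  have hc2 : c ^ 2 = 1 - s ^ 2 := Real.sq_sqrt hc0.le
  have hc3 : 1 / √((m : ℝ) + 1) ≤ c := by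
    rw [hc]
    apply Real.le_sqrt_of_sq_le
    rw [div_pow, one_pow, Real.sq_sqrt hm1.le]
    exact hc1
  have h := cap_count (E := EuclideanSpace ℝ (Fin (n + 1))) (n := n) (by simp) hs0 hcpos
    (by rw [hc2]; ring) hε hε1 (N := (m + N).choose m - 1) C hC (by
      intro w P hPC hP
      have h1 := ramsey_local (n := n + 1) (Y := (↑C : Set (EuclideanSpace ℝ (Fin (n + 1)))))
        (r := 1) (t := τ / 2) (by positivity) one_pos (m := m) (N := N)
        (fun Q hQ hz => hclose Q (by exact_mod_cast hQ) (fun x hx y hy hxy => by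
          have := hz x hx y hy hxy
          linarith)) w P (by exact_mod_cast hPC) (fun x hx => by
          have e : τ / 2 * √(2 * m / (m + 1)) * 1 = s := by
            rw [hs, mul_div_assoc, Real.sqrt_mul (by norm_num), mul_one]
            have h2 : √2 * √2 = 2 := Real.mul_self_sqrt (by norm_num)
            have h3 : √(2 : ℝ) ≠ 0 := by positivity
            field_simp
            linarith
          rw [e]
          exact hP x hx)
      exact h1)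
  refine le_trans ?_ h
  apply mul_le_mul_of_nonneg_left _ (Nat.cast_nonneg _)
  apply mul_le_mul_of_nonneg_right
  · rw [div_le_div_iff₀ (by positivity) (by norm_num)]
    rw [div_le_iff₀ (by positivity)] at hc3
    nlinarith
  · have : 0 < 1 - ε := by linarith
    positivity

/-- **Close cliques, asymptotic form.** -/
theorem sph_asym {δ : ℝ} (hδ : 0 < δ) : ∃ σ : ℝ, 0 < σ ∧ ∀ᶠ n : ℕ in atTop,
    ∀ (C : Finset (EuclideanSpace ℝ (Fin n))) (τ : ℝ), (∀ x ∈ C, ‖x‖ = 1) → 0 < τ → ∀ N : ℕ,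
      (N : ℝ) ≤ (2 : ℝ) ^ (σ * n) →
      (∀ Q ⊆ C, (∀ x ∈ Q, ∀ y ∈ Q, x ≠ y → dist x y < τ) → Q.card ≤ N) →
      (C.card : ℝ) ≤ ((2 : ℝ) ^ δ * max 1 (√2 / τ)) ^ n := by
  have hδ1 : 1 < (2 : ℝ) ^ (δ / 2) := Real.one_lt_rpow (by norm_num) (by positivity)
  set m : ℕ := ⌈1 / ((2 : ℝ) ^ (δ / 2) - 1)⌉₊ with hm
  have h0 : 0 < (2 : ℝ) ^ (δ / 2) - 1 := by linarith
  have hmr : 1 / ((2 : ℝ) ^ (δ / 2) - 1) ≤ m := Nat.le_ceil _
  have hm0 : (0 : ℝ) < m := lt_of_lt_of_le (by positivity) hmr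
  have hm1 : 1 ≤ m := by exact_mod_cast hm0
  have hmr2 : ((m : ℝ) + 1) / m ≤ (2 : ℝ) ^ (δ / 2) := by
    rw [div_le_iff₀ h0] at hmr
    rw [div_le_iff₀ hm0]
    nlinarith
  have hmr3 : (2 : ℝ) ^ (-(δ / 4)) ≤ √((m : ℝ) / (m + 1)) := by
    apply Real.le_sqrt_of_sq_le
    rw [← Real.rpow_natCast, ← Real.rpow_mul (by norm_num)]
    have e : (2 : ℝ) ^ (-(δ / 4) * ((2 : ℕ) : ℝ)) = ((2 : ℝ) ^ (δ / 2))⁻¹ := by
      rw [← Real.rpow_neg (by norm_num)]
      congr 1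
      push_cast
      ring
    have e3 : (m : ℝ) / (m + 1) = (((m : ℝ) + 1) / m)⁻¹ := (inv_div _ _).symm
    rw [e, e3]
    exact inv_anti₀ (by positivity) hmr2
  set ε : ℝ := 1 - (2 : ℝ) ^ (-(δ / 4)) with hε
  have hε2 : (2 : ℝ) ^ (-(δ / 4)) < 1 := Real.rpow_lt_one_of_one_lt_of_neg (by norm_num) (by linarith)
  have hε3 : 0 < (2 : ℝ) ^ (-(δ / 4)) := by positivity
  have hε0 : 0 < ε := by linarith
  have hε1 : ε < 1 := by linarith
  set A : ℝ := 2 * √((m : ℝ) + 1) / ε with hA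
  have hA0 : 0 < A := by positivity
  have hlim : Tendsto (fun n : ℕ => ((2 : ℝ) ^ (δ / 4)) ^ n) atTop atTop :=
    tendsto_pow_atTop_atTop_of_one_lt (Real.one_lt_rpow (by norm_num) (by positivity))
  refine ⟨δ / (8 * m), by positivity, ?_⟩
  filter_upwards [eventually_ge_atTop ⌈8 * m / δ⌉₊, eventually_ge_atTop 1,
    hlim.eventually_ge_atTop A] with n hn hn1 hAn C τ₀ hC hτ₀ N hN hclose₀
  -- reduce to `τ ≤ √2`
  obtain ⟨τ, hτ, hτ2, hττ₀, hmax⟩ : ∃ τ : ℝ, 0 < τ ∧ τ ≤ √2 ∧ τ ≤ τ₀ ∧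
      max 1 (√2 / τ₀) = √2 / τ := by
    rcases le_or_gt τ₀ (√2) with h | h
    · refine ⟨τ₀, hτ₀, h, le_rfl, max_eq_right ?_⟩
      rw [le_div_iff₀ hτ₀]
      linarith
    · refine ⟨√2, by positivity, le_rfl, h.le, ?_⟩
      rw [div_self (by positivity)]
      apply max_eq_left
      rw [div_le_one hτ₀]
      exact h.le
  rw [hmax]
  have hclose : ∀ Q ⊆ C, (∀ x ∈ Q, ∀ y ∈ Q, x ≠ y → dist x y < τ) → Q.card ≤ N :=
    fun Q hQ hz => hclose₀ Q hQ fun x hx y hy hxy => lt_of_lt_of_le (hz x hx y hy hxy) hττ₀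
  obtain ⟨k, rfl⟩ : ∃ k, n = k + 1 := ⟨n - 1, by omega⟩
  have hn2 : 8 * m / δ ≤ ((k + 1 : ℕ) : ℝ) := (Nat.le_ceil _).trans (by exact_mod_cast hn)
  have h1 := sph_close C hC hτ hτ2 hm1 hε0 hε1 hclose
  have hN2 : (N : ℝ) + 1 ≤ (2 : ℝ) ^ (δ / (4 * m) * (k + 1 : ℕ)) := by
    rw [div_le_iff₀ hδ] at hn2
    have h2 : (2 : ℝ) ≤ (2 : ℝ) ^ (δ / (8 * m) * (k + 1 : ℕ)) := by
      calc (2 : ℝ) = (2 : ℝ) ^ (1 : ℝ) := (Real.rpow_one 2).symm
        _ ≤ _ := Real.rpow_le_rpow_of_exponent_le (by norm_num) (by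
          rw [div_mul_eq_mul_div, le_div_iff₀ (by positivity)]
          linarith)
    calc (N : ℝ) + 1 ≤ (2 : ℝ) ^ (δ / (8 * m) * (k + 1 : ℕ)) *
          (2 : ℝ) ^ (δ / (8 * m) * (k + 1 : ℕ)) := by nlinarith
      _ = (2 : ℝ) ^ (δ / (4 * m) * (k + 1 : ℕ)) := by
          rw [← Real.rpow_add (by norm_num)]
          congr 1
          field_simp
          ring
  have hCM : (((m + N).choose m - 1 : ℕ) : ℝ) ≤ ((2 : ℝ) ^ (δ / 4)) ^ (k + 1) := by
    calc (((m + N).choose m - 1 : ℕ) : ℝ) ≤ (((m + N).choose m : ℕ) : ℝ) := by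
          exact_mod_cast Nat.sub_le _ _
      _ ≤ (((N + 1) ^ m : ℕ) : ℝ) := by exact_mod_cast choose_le_pow' N m
      _ = ((N : ℝ) + 1) ^ m := by push_cast; ring
      _ ≤ ((2 : ℝ) ^ (δ / (4 * m) * (k + 1 : ℕ))) ^ m := pow_le_pow_left₀ (by positivity) hN2 m
      _ = ((2 : ℝ) ^ (δ / 4)) ^ (k + 1) := by
          rw [← Real.rpow_natCast, ← Real.rpow_mul (by norm_num), ← Real.rpow_natCast _ (k + 1),
            ← Real.rpow_mul (by norm_num)]
          congr 1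
          field_simp
  set B : ℝ := √2 / τ with hB
  have hB1 : 1 ≤ B := by
    rw [hB, le_div_iff₀ hτ]; linarith
  have hB0 : 0 < B := by linarith
  have hτB : τ / √2 = B⁻¹ := by rw [hB, inv_div]
  have hlow : (B⁻¹ * (2 : ℝ) ^ (-(δ / 4)) * (2 : ℝ) ^ (-(δ / 4))) ^ k ≤
      (τ / √2 * √(m / (m + 1)) * (1 - ε)) ^ k := by
    apply pow_le_pow_left₀ (by positivity)
    have e : 1 - ε = (2 : ℝ) ^ (-(δ / 4)) := by rw [hε]; ring
    rw [e, hτB]
    exact mul_le_mul_of_nonneg_right (mul_le_mul_of_nonneg_left hmr3 (by positivity)) hε3.le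
  have hA2 : ε / (2 * √(m + 1)) = A⁻¹ := by rw [hA, inv_div]
  rw [hA2] at h1
  have h2 : (C.card : ℝ) * (A⁻¹ * (B⁻¹ * (2 : ℝ) ^ (-(δ / 4)) * (2 : ℝ) ^ (-(δ / 4))) ^ k) ≤
      ((2 : ℝ) ^ (δ / 4)) ^ (k + 1) :=
    le_trans (mul_le_mul_of_nonneg_left (mul_le_mul_of_nonneg_left hlow (by positivity))
      (Nat.cast_nonneg _)) (h1.trans hCM)
  set u : ℝ := (2 : ℝ) ^ (δ / 4) with hu
  have hu1 : 1 ≤ u := Real.one_le_rpow (by norm_num) (by positivity)
  have hu0 : 0 < u := by linarith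
  have hun : (2 : ℝ) ^ (-(δ / 4)) = u⁻¹ := Real.rpow_neg (by norm_num) _
  rw [hun] at h2
  have e2 : A⁻¹ * (B⁻¹ * u⁻¹ * u⁻¹) ^ k = (A * (B * u * u) ^ k)⁻¹ := by
    rw [mul_inv A, ← inv_pow, mul_inv (B * u), mul_inv B]
  rw [e2, ← div_eq_mul_inv, div_le_iff₀ (by positivity)] at h2
  have hu4 : (2 : ℝ) ^ δ = u * u * u * u := by
    rw [hu, ← Real.rpow_add (by norm_num), ← Real.rpow_add (by norm_num),
      ← Real.rpow_add (by norm_num)]
    congr 1
    ring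
  have hBu : 1 ≤ B * u * u := by nlinarith [mul_le_mul hB1 hu1 (by norm_num) hB0.le]
  calc (C.card : ℝ) ≤ u ^ (k + 1) * (A * (B * u * u) ^ k) := h2
    _ ≤ u ^ (k + 1) * (u ^ (k + 1) * (B * u * u) ^ (k + 1)) := by
        apply mul_le_mul_of_nonneg_left _ (by positivity)
        exact mul_le_mul hAn (pow_le_pow_right₀ hBu (Nat.le_succ k)) (by positivity) (by positivity)
    _ = ((2 : ℝ) ^ δ * B) ^ (k + 1) := by
        rw [hu4, ← mul_pow, ← mul_pow]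
        congr 1
        ring

/-- **Kernels of small rank.** -/
theorem sph_kernel {δ : ℝ} (hδ : 0 < δ) : ∃ σ : ℝ, 0 < σ ∧ ∀ᶠ n : ℕ in atTop,
    ∀ (C : Finset (EuclideanSpace ℝ (Fin n))) (τ : ℝ), (∀ x ∈ C, ‖x‖ = 1) → 0 < τ →
      ∀ (K R k : Type) [Field K] [CommRing R] [Field k] (ψ : R →+* K) (φ : R →+* k)
        (F : C → C → R), Function.Injective ψ →
        ((Matrix.of fun x y => ψ (F x y)).rank : ℝ) ≤ (2 : ℝ) ^ (σ * n) →
        (∀ x, φ (F x x) ≠ 0) →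
        (∀ x y : C, x ≠ y → dist (x : EuclideanSpace ℝ (Fin n)) y < τ → φ (F x y) = 0) →
        (C.card : ℝ) ≤ ((2 : ℝ) ^ δ * max 1 (√2 / τ)) ^ n := by
  classical
  obtain ⟨σ, hσ0, hσ⟩ := sph_asym hδ
  refine ⟨σ, hσ0, ?_⟩
  filter_upwards [hσ] with n hn C τ hC hτ K R k _ _ _ ψ φ F hψ hrank hd hoff
  apply hn C τ hC hτ _ hrank
  intro Q hQ hz
  set V : Submodule K (C → K) := Submodule.span K (Set.range (fun x : C => fun y => ψ (F x y)))
    with hV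
  have h1 : Module.finrank K V = (Matrix.of fun x y => ψ (F x y)).rank := by
    rw [Matrix.rank_eq_finrank_span_row]
    rfl
  have h2 := kernel_close (E := EuclideanSpace ℝ (Fin n)) hψ φ
    (Y := (↑C : Set (EuclideanSpace ℝ (Fin n)))) F V inferInstance h1.le
    (fun x => Submodule.subset_span ⟨x, rfl⟩) hd Q (by exact_mod_cast hQ)
    (fun x y hx hy hxy => hoff x y hxy (hz x hx y hy (fun h => hxy (Subtype.ext h))))
  exact h2

/-- cliques of points seeing few distances -/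
theorem few_clique {n : ℕ} (C : Finset (EuclideanSpace ℝ (Fin n))) (τ : ℝ) (s : ℕ)
    (Q : Finset (EuclideanSpace ℝ (Fin n))) (hQ : Q ⊆ fewDist C τ s)
    (hz : ∀ x ∈ Q, ∀ y ∈ Q, x ≠ y → dist x y < τ) : Q.card ≤ (n + s + 1).choose s := by
  classical
  have hex : ∀ x : Q, ∃ a : Fin s → ℝ, (∀ i, 0 < a i) ∧
      ∀ y ∈ C, y ≠ x.1 → dist x.1 y < τ → ∃ i, a i = dist x.1 y := by
    intro x
    have hx := hQ x.2
    unfold fewDist at hx
    rw [Finset.mem_filter] at hx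
    have hcard : Fintype.card (near C τ x.1) ≤ Fintype.card (Fin s) := by
      rw [Fintype.card_coe, Fintype.card_fin]
      exact hx.2
    obtain ⟨e⟩ := Function.Embedding.nonempty_of_card_le hcard
    refine ⟨Function.extend e (fun v => v.1) (fun _ => 1), ?_, ?_⟩
    · intro i
      by_cases hi : ∃ v, e v = i
      · obtain ⟨v, rfl⟩ := hi
        rw [e.injective.extend_apply]
        have hv := v.2
        unfold near at hv
        rw [Finset.mem_image] at hv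
        obtain ⟨y, hy, hy2⟩ := hv
        rw [Finset.mem_filter] at hy
        rw [← hy2]
        exact dist_pos.2 hy.2.1.symm
      · rw [Function.extend_apply' _ _ _ hi]
        exact one_pos
    · intro y hy hyx hd
      have hmem : dist x.1 y ∈ near C τ x.1 := by
        unfold near
        rw [Finset.mem_image]
        exact ⟨y, Finset.mem_filter.2 ⟨hy, hyx, hd⟩, rfl⟩
      exact ⟨e ⟨_, hmem⟩, e.injective.extend_apply _ _ _⟩
  choose a ha0 ha using hex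
  have h2 := kernel_close (E := EuclideanSpace ℝ (Fin n)) (K := ℝ) (R := ℝ) (k := ℝ)
    (ψ := RingHom.id ℝ) (fun _ _ h => h) (RingHom.id ℝ)
    (Y := (↑Q : Set (EuclideanSpace ℝ (Fin n))))
    (fun x y => ∏ i, (-1 / a x i ^ 2 * dist x.1 y.1 ^ 2 + 1))
    (Pool.Agent.H442SN.polySp (fun y : (↑Q : Set (EuclideanSpace ℝ (Fin n))) =>
      zc (y : EuclideanSpace ℝ (Fin n))) s)
    (Pool.Agent.H442SN.finite_polySp _ _) le_rfl
    (fun x => dist_aff_mem (fun y : (↑Q : Set (EuclideanSpace ℝ (Fin n))) =>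
      (y : EuclideanSpace ℝ (Fin n))) x.1 (fun i => -1 / a x i ^ 2) (fun _ => 1))
    (fun x => by simp) Q subset_rfl
    (fun x y hx hy hxy => by
      have hne : x.1 ≠ y.1 := fun h => hxy (Subtype.ext h)
      have hyC : y.1 ∈ C := by
        have := hQ hy
        unfold fewDist at this
        exact (Finset.mem_filter.1 this).1
      obtain ⟨i, hi⟩ := ha x y.1 hyC hne.symm (hz x.1 hx y.1 hy hne)
      rw [RingHom.id_apply]
      apply Finset.prod_eq_zero (Finset.mem_univ i)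
      have h3 := ha0 x i
      rw [← hi]
      field_simp
      ring)
  have h3 := Pool.Agent.H442SN.finrank_polySp
    (fun y : (↑Q : Set (EuclideanSpace ℝ (Fin n))) => zc (y : EuclideanSpace ℝ (Fin n))) s
  have h4 : ((n + 1 + s).choose s : ℕ) = (n + s + 1).choose s := by
    congr 1
    omega
  rw [h4] at h3
  exact h2.trans h3

/-- **Few distances.** -/
theorem sph_few {δ : ℝ} (hδ : 0 < δ) : ∃ σ : ℝ, 0 < σ ∧ ∀ᶠ n : ℕ in atTop,
    ∀ (C : Finset (EuclideanSpace ℝ (Fin n))) (τ : ℝ) (s : ℕ), (∀ x ∈ C, ‖x‖ = 1) → 0 < τ →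
      (s : ℝ) ≤ σ * n →
      ((fewDist C τ s).card : ℝ) ≤ ((2 : ℝ) ^ δ * max 1 (√2 / τ)) ^ n := by
  classical
  obtain ⟨σ, hσ0, hσ⟩ := sph_asym hδ
  obtain ⟨μ, hμ0, -, hμ⟩ := choose_small hσ0
  refine ⟨μ, hμ0, ?_⟩
  filter_upwards [hσ, hμ] with n hn hch C τ s hC hτ hs
  have hsub : fewDist C τ s ⊆ C := by
    unfold fewDist
    exact Finset.filter_subset _ _
  apply hn (fewDist C τ s) τ (fun x hx => hC x (hsub hx)) hτ ((n + s + 1).choose s)
  · have h1 := hch s hs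
    have : (0 : ℝ) ≤ ((n + s + 1).choose s : ℝ) := Nat.cast_nonneg _
    linarith
  · exact fun Q hQ hz => few_clique C τ s Q hQ hz

end Pool.Agent.H442KS
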