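import Pool.Agent.H442KS.Upper

/-! Narrow windows of distances (MP_b5f63d_co; helper442). -/

open Metric Filter Set
open scoped Topology

namespace Pool.Agent.H442KS

open Pool.Agent.H442FD (choose_small zc local_card)

variable {n : ℕ}

theorem win_bound {C : Finset (EuclideanSpace ℝ (Fin n))} {d t ε : ℝ} {s k : ℕ} (hd : 0 < d)
    (hC : IsCode C d) (ht : 1 ≤ t) (hε : 0 ≤ ε)
    (P : Finset (EuclideanSpace ℝ (Fin n))) (hP : P ⊆ fewWin C (t * d) s ε)
    (hz : ∀ x ∈ P, ∀ y ∈ P, x ≠ y → dist x y < t * d) (hne : P.Nonempty) :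
    (P.card : ℝ) ≤ ((n + s * k + 1).choose (s * k) : ℕ) *
      (1 + (P.card - 1) * ((((1 + ε) ^ 2 - 1) * t ^ (2 * (s - 1))) ^ k) ^ 2) := by
  classical
  have h2 : 0 < d / 2 := by positivity
  apply local_card h2 ht hε _ hne
  intro x hx
  have hx' := hP hx
  unfold fewWin at hx'
  rw [Finset.mem_filter] at hx'
  obtain ⟨hxC, a, ha⟩ := hx'
  refine ⟨fun i => max (a i) (2 * (d / 2)), fun i => le_max_right _ _, ?_⟩
  intro y hy hxy
  have hy' := hP hy
  unfold fewWin at hy'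
  have hyC := (Finset.mem_filter.1 hy').1
  have h1 : dist x y < t * d := hz x hx y hy hxy
  refine ⟨by linarith, ?_⟩
  obtain ⟨i, hi1, hi2⟩ := ha y hyC hxy.symm h1
  refine ⟨i, max_le hi1 (by have := hC.2 x hxC y hyC hxy; linarith), hi2.trans ?_⟩
  exact mul_le_mul_of_nonneg_left (le_max_left _ _) (by linarith)

theorem win_close {C : Finset (EuclideanSpace ℝ (Fin n))} {d t ε : ℝ} {s k : ℕ} (hd : 0 < d)
    (hC : IsCode C d) (ht : 1 ≤ t) (hε : 0 ≤ ε)
    (hk : 2 * ((n + s * k + 1).choose (s * k) : ℝ) *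
      (((1 + ε) ^ 2 - 1) * t ^ (2 * (s - 1))) ^ (2 * k) ≤ 1)
    (P : Finset (EuclideanSpace ℝ (Fin n))) (hP : P ⊆ fewWin C (t * d) s ε)
    (hz : ∀ x ∈ P, ∀ y ∈ P, x ≠ y → dist x y < t * d) :
    P.card ≤ 2 * (n + s * k + 1).choose (s * k) := by
  classical
  set D := (n + s * k + 1).choose (s * k) with hD
  by_contra hcon
  push Not at hcon
  obtain ⟨Q, hQP, hQ⟩ := Finset.exists_subset_card_eq (show 2 * D + 1 ≤ P.card by omega)
  have hne : Q.Nonempty := by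
    rw [← Finset.card_pos]
    omega
  have h2 := win_bound (k := k) hd hC ht hε Q (fun x hx => hP (hQP hx))
    (fun x hx y hy => hz x (hQP hx) y (hQP hy)) hne
  rw [hQ, ← pow_mul, mul_comm k 2] at h2
  push_cast at h2
  set q := (((1 + ε) ^ 2 - 1) * t ^ (2 * (s - 1))) ^ (2 * k) with hq
  have hD0 : (0 : ℝ) ≤ D := Nat.cast_nonneg _
  have h3 : (D : ℝ) * (1 + (2 * D + 1 - 1) * q) ≤ 2 * D := by nlinarith
  linarith

/-- **Narrow windows.** -/
theorem sph_win {d τ δ : ℝ} (hd : 0 < d) (hτ : d ≤ τ) (hδ : 0 < δ) (s : ℕ) : ∃ ε : ℝ, 0 < ε ∧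
    ∀ᶠ n : ℕ in atTop, ∀ C : Finset (EuclideanSpace ℝ (Fin n)), IsCode C d →
      ((fewWin C τ s ε).card : ℝ) ≤ ((2 : ℝ) ^ δ * max 1 (√2 / τ)) ^ n := by
  classical
  obtain ⟨t, rfl⟩ : ∃ t, τ = t * d := ⟨τ / d, by field_simp⟩
  have ht : 1 ≤ t := by
    by_contra h
    push Not at h
    nlinarith
  obtain ⟨σ0, hσ0, hσ⟩ := sph_asym hδ
  obtain ⟨μ, hμ0, -, hμ⟩ := choose_small hσ0
  have hs1 : (0 : ℝ) < s + 1 := by positivity
  have ht0 : 0 < t := by linarith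
  set A : ℝ := (2 : ℝ) ^ (-(σ0 * (s + 1) / μ)) with hA
  have hA0 : 0 < A := by positivity
  set M : ℝ := t ^ (2 * (s - 1)) with hM
  have hM0 : 0 < M := by positivity
  obtain ⟨ε, hε0, hε⟩ : ∃ ε : ℝ, 0 < ε ∧ ((1 + ε) ^ 2 - 1) * M ≤ A := by
    refine ⟨min 1 (A / (3 * M)), by positivity, ?_⟩
    have h1 : min 1 (A / (3 * M)) ≤ 1 := min_le_left _ _
    have h2 : min 1 (A / (3 * M)) ≤ A / (3 * M) := min_le_right _ _
    have h3 : 0 < min 1 (A / (3 * M)) := by positivity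
    set ε := min 1 (A / (3 * M))
    calc ((1 + ε) ^ 2 - 1) * M ≤ (3 * ε) * M :=
          mul_le_mul_of_nonneg_right (by nlinarith) hM0.le
      _ ≤ (3 * (A / (3 * M))) * M :=
          mul_le_mul_of_nonneg_right (by linarith) hM0.le
      _ = A := by field_simp
  refine ⟨ε, hε0, ?_⟩
  filter_upwards [hσ, hμ, eventually_ge_atTop ⌈2 * (s + 1) / μ⌉₊] with n hcl hn hn2 C hC
  have hn2' : 2 * (s + 1) / μ ≤ n := (Nat.le_ceil _).trans (by exact_mod_cast hn2)
  rw [div_le_iff₀ hμ0] at hn2'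
  set k := ⌊μ * n / (s + 1)⌋₊ with hk
  have hk1 : (k : ℝ) ≤ μ * n / (s + 1) := Nat.floor_le (by positivity)
  have hk2 : μ * n / (s + 1) < k + 1 := Nat.lt_floor_add_one _
  have hk3 : μ * n / (2 * (s + 1)) ≤ k := by
    have h1 : 2 ≤ μ * n / (s + 1) := by
      rw [le_div_iff₀ hs1]; linarith
    have h2 : μ * n / (2 * (s + 1)) = (μ * n / (s + 1)) / 2 := by field_simp
    rw [h2]; linarith
  have hsk : ((s * k : ℕ) : ℝ) ≤ μ * n := by
    push_cast
    rw [le_div_iff₀ hs1] at hk1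
    have : (0 : ℝ) ≤ k := Nat.cast_nonneg _
    nlinarith
  have h1 := hn (s * k) hsk
  have hq0 : 0 ≤ ((1 + ε) ^ 2 - 1) * M := mul_nonneg (by nlinarith) hM0.le
  have h2 : (((1 + ε) ^ 2 - 1) * M) ^ (2 * k) ≤ (2 : ℝ) ^ (-(σ0 * n)) := by
    calc (((1 + ε) ^ 2 - 1) * M) ^ (2 * k) ≤ A ^ (2 * k) := pow_le_pow_left₀ hq0 hε _
      _ = (2 : ℝ) ^ (-(σ0 * (s + 1) / μ) * ((2 * k : ℕ) : ℝ)) := by
          rw [hA, ← Real.rpow_natCast, ← Real.rpow_mul (by norm_num)]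
      _ ≤ (2 : ℝ) ^ (-(σ0 * n)) := by
          apply Real.rpow_le_rpow_of_exponent_le (by norm_num)
          have h3 : σ0 * n = σ0 * (s + 1) / μ * (2 * (μ * n / (2 * (s + 1)))) := by
            field_simp
          rw [h3, neg_mul, neg_le_neg_iff]
          apply mul_le_mul_of_nonneg_left _ (by positivity)
          push_cast
          linarith
  have hsub : fewWin C (t * d) s ε ⊆ C := by
    unfold fewWin
    exact Finset.filter_subset _ _
  apply hcl (fewWin C (t * d) s ε) (t * d) (fun x hx => hC.1 x (hsub hx)) (by positivity)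
    (2 * (n + s * k + 1).choose (s * k))
  · push_cast
    exact h1
  · intro Q hQ hz
    apply win_close hd hC ht hε0.le _ Q hQ hz
    calc 2 * ((n + s * k + 1).choose (s * k) : ℝ) * (((1 + ε) ^ 2 - 1) * M) ^ (2 * k)
        ≤ (2 : ℝ) ^ (σ0 * n) * (2 : ℝ) ^ (-(σ0 * n)) :=
          mul_le_mul h1 h2 (pow_nonneg hq0 _) (by positivity)
      _ = 1 := by
          rw [← Real.rpow_add (by norm_num), add_neg_cancel, Real.rpow_zero]

end Pool.Agent.H442KS
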